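import Mathlib

/-!
A finite set of conditional equations, all valid in every common meadow, that derives
`φ_p : 0/2 · 0/3 = 0/2 · 0/p → 0/3 = 0/p` for every prime `p ≥ 5` at once.
-/

universe u v

namespace Pool.Agent.Results.MP_f888fa_lc.FiniteAxioms

/-- Terms over the signature `(0, 1, ⊥, +, -, ·, ÷)` with variables indexed by `ℕ`. -/
inductive Term : Type
  | var : ℕ → Term
  | zero : Term
  | one : Term
  | bot : Term
  | neg : Term → Term
  | add : Term → Term → Term
  | mul : Term → Term → Term
  | div : Term → Term → Term

/-- An algebra for the signature, with carrier `A`. -/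
structure Alg (A : Type u) : Type u where
  zero : A
  one : A
  bot : A
  neg : A → A
  add : A → A → A
  mul : A → A → A
  div : A → A → A

/-- The value of a term under an assignment of the variables. -/
def Alg.eval {A : Type u} (S : Alg A) (s : ℕ → A) : Term → A
  | .var n => s n
  | .zero => S.zero
  | .one => S.one
  | .bot => S.bot
  | .neg t => S.neg (S.eval s t)
  | .add t r => S.add (S.eval s t) (S.eval s r)
  | .mul t r => S.mul (S.eval s t) (S.eval s r)
  | .div t r => S.div (S.eval s t) (S.eval s r)

/-- A conditional equation `e_1 ∧ ⋯ ∧ e_n → e`. -/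
structure CondEq : Type where
  hyps : List (Term × Term)
  concl : Term × Term

/-- Truth of a conditional equation in an algebra, variables read universally. -/
def Holds {A : Type u} (S : Alg A) (c : CondEq) : Prop :=
  ∀ s : ℕ → A, (∀ e ∈ c.hyps, S.eval s e.1 = S.eval s e.2) →
    S.eval s c.concl.1 = S.eval s c.concl.2

/-- A binary operation made absorptive at the new element `none`. -/
def lift2 {F : Type u} (f : F → F → Option F) : Option F → Option F → Option F
  | some a, some b => f a b
  | _, _ => none

open Classical in
/-- The common meadow of the field `F`; the element `⊥` is `none`. -/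
noncomputable def commonMeadow (F : Type u) [Field F] : Alg (Option F) where
  zero := some 0
  one := some 1
  bot := none
  neg := Option.map fun a => -a
  add := lift2 fun a b => some (a + b)
  mul := lift2 fun a b => some (a * b)
  div := lift2 fun a b => if b = 0 then none else some (a * b⁻¹)

/-- Numerals: `1`, `1 + 1`, `(1 + 1) + 1`, … (and `num 0` is `0`). -/
def num : ℕ → Term
  | 0 => .zero
  | 1 => .one
  | n + 2 => .add (num (n + 1)) .one

/-- The conditional equation `0/2 · 0/3 = 0/2 · 0/p → 0/3 = 0/p`. -/
def phi (p : ℕ) : CondEq where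
  hyps := [(.mul (.div .zero (num 2)) (.div .zero (num 3)),
    .mul (.div .zero (num 2)) (.div .zero (num p)))]
  concl := (.div .zero (num 3), .div .zero (num p))

/-! ### The finite set of conditional equations -/

/-- `x + y = y + x`. -/
def axAddComm : CondEq := ⟨[], .add (.var 0) (.var 1), .add (.var 1) (.var 0)⟩

/-- `(x + y) + z = x + (y + z)`. -/
def axAddAssoc : CondEq :=
  ⟨[], .add (.add (.var 0) (.var 1)) (.var 2), .add (.var 0) (.add (.var 1) (.var 2))⟩

/-- `1 · x = x`. -/
def axOneMul : CondEq := ⟨[], .mul .one (.var 0), .var 0⟩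

/-- `(x + y) · z = x · z + y · z`. -/
def axDistr : CondEq :=
  ⟨[], .mul (.add (.var 0) (.var 1)) (.var 2),
    .add (.mul (.var 0) (.var 2)) (.mul (.var 1) (.var 2))⟩

/-- `x · (y + z) = x · y + x · z`. -/
def axDistl : CondEq :=
  ⟨[], .mul (.var 0) (.add (.var 1) (.var 2)),
    .add (.mul (.var 0) (.var 1)) (.mul (.var 0) (.var 2))⟩

/-- `0 · 1 = 0`. -/
def axZeroOne : CondEq := ⟨[], .mul .zero .one, .zero⟩

/-- `0 + 0 = 0`. -/
def axZeroZero : CondEq := ⟨[], .add .zero .zero, .zero⟩

/-- `0 · u = 0 ∧ 0 · v = 0 ∧ 0/x · 0/(1 + x · u) = 0/x · 0/(1 + x · v) →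
`0/(1 + x · u) = 0/(1 + x · v)`. -/
def axCase : CondEq :=
  ⟨[(.mul .zero (.var 1), .zero), (.mul .zero (.var 2), .zero),
    (.mul (.div .zero (.var 0)) (.div .zero (.add .one (.mul (.var 0) (.var 1)))),
      .mul (.div .zero (.var 0)) (.div .zero (.add .one (.mul (.var 0) (.var 2)))))],
    .div .zero (.add .one (.mul (.var 0) (.var 1))),
    .div .zero (.add .one (.mul (.var 0) (.var 2)))⟩

/-- The finite set. -/
def axiomsE : List CondEq :=
  [axAddComm, axAddAssoc, axOneMul, axDistr, axDistl, axZeroOne, axZeroZero, axCase]

/-! ### Validity in common meadows -/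

theorem valid (F : Type u) [Field F] (c : CondEq) (hc : c ∈ axiomsE) :
    Holds (commonMeadow F) c := by
  classical
  simp only [axiomsE, List.mem_cons, List.not_mem_nil, or_false] at hc
  rcases hc with rfl | rfl | rfl | rfl | rfl | rfl | rfl | rfl
  · intro s _
    simp only [axAddComm, Alg.eval, commonMeadow]
    rcases s 0 with _ | a <;> rcases s 1 with _ | b <;> simp [lift2, add_comm]
  · intro s _
    simp only [axAddAssoc, Alg.eval, commonMeadow]
    rcases s 0 with _ | a <;> rcases s 1 with _ | b <;> rcases s 2 with _ | c <;>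
      simp [lift2, add_assoc]
  · intro s _
    simp only [axOneMul, Alg.eval, commonMeadow]
    rcases s 0 with _ | a <;> simp [lift2]
  · intro s _
    simp only [axDistr, Alg.eval, commonMeadow]
    rcases s 0 with _ | a <;> rcases s 1 with _ | b <;> rcases s 2 with _ | c <;>
      simp [lift2, add_mul]
  · intro s _
    simp only [axDistl, Alg.eval, commonMeadow]
    rcases s 0 with _ | a <;> rcases s 1 with _ | b <;> rcases s 2 with _ | c <;>
      simp [lift2, mul_add]
  · intro s _
    simp [axZeroOne, Alg.eval, commonMeadow, lift2]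
  · intro s _
    simp [axZeroZero, Alg.eval, commonMeadow, lift2]
  · intro s h
    simp only [axCase, Alg.eval, commonMeadow, List.mem_cons, List.not_mem_nil, or_false,
      forall_eq_or_imp, forall_eq] at h ⊢
    obtain ⟨hu, hv, h⟩ := h
    revert hu hv h
    rcases s 0 with _ | x
    · intro _ _ _
      rcases s 1 with _ | b <;> rcases s 2 with _ | c <;> simp [lift2]
    · rcases s 1 with _ | b
      · intro hu
        simp [lift2] at hu
      · rcases s 2 with _ | c
        · intro _ hv
          simp [lift2] at hv
        · intro _ _ h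
          by_cases hx : x = 0
          · subst hx
            simp [lift2]
          · simp only [lift2, hx, if_false, zero_mul] at h ⊢
            by_cases h1 : 1 + x * b = 0 <;> by_cases h2 : 1 + x * c = 0 <;>
              simp [h1, h2] at h ⊢

/-! ### The derivation -/

section derive

variable {A : Type v} {S : Alg A} (hS : ∀ c ∈ axiomsE, Holds S c)

include hS

theorem add_comm' (x y : A) : S.add x y = S.add y x := by
  have h := hS axAddComm (by simp [axiomsE]) (fun n => if n = 0 then x else y) (by simp [axAddComm])
  simpa [axAddComm, Alg.eval] using h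

theorem add_assoc' (x y z : A) : S.add (S.add x y) z = S.add x (S.add y z) := by
  have h := hS axAddAssoc (by simp [axiomsE])
    (fun n => if n = 0 then x else if n = 1 then y else z) (by simp [axAddAssoc])
  simpa [axAddAssoc, Alg.eval] using h

theorem one_mul' (x : A) : S.mul S.one x = x := by
  have h := hS axOneMul (by simp [axiomsE]) (fun _ => x) (by simp [axOneMul])
  simpa [axOneMul, Alg.eval] using h

theorem distr' (x y z : A) : S.mul (S.add x y) z = S.add (S.mul x z) (S.mul y z) := by
  have h := hS axDistr (by simp [axiomsE])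
    (fun n => if n = 0 then x else if n = 1 then y else z) (by simp [axDistr])
  simpa [axDistr, Alg.eval] using h

theorem distl' (x y z : A) : S.mul x (S.add y z) = S.add (S.mul x y) (S.mul x z) := by
  have h := hS axDistl (by simp [axiomsE])
    (fun n => if n = 0 then x else if n = 1 then y else z) (by simp [axDistl])
  simpa [axDistl, Alg.eval] using h

theorem zero_one' : S.mul S.zero S.one = S.zero := by
  have h := hS axZeroOne (by simp [axiomsE]) (fun _ => S.zero) (by simp [axZeroOne])
  simpa [axZeroOne, Alg.eval] using h

theorem zero_zero' : S.add S.zero S.zero = S.zero := by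
  have h := hS axZeroZero (by simp [axiomsE]) (fun _ => S.zero) (by simp [axZeroZero])
  simpa [axZeroZero, Alg.eval] using h

theorem case' (x b c : A) (hb : S.mul S.zero b = S.zero) (hc : S.mul S.zero c = S.zero)
    (h : S.mul (S.div S.zero x) (S.div S.zero (S.add S.one (S.mul x b))) =
      S.mul (S.div S.zero x) (S.div S.zero (S.add S.one (S.mul x c)))) :
    S.div S.zero (S.add S.one (S.mul x b)) = S.div S.zero (S.add S.one (S.mul x c)) := by
  have h := hS axCase (by simp [axiomsE])
    (fun n => if n = 0 then x else if n = 1 then b else c)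
    (by simp [axCase, Alg.eval, hb, hc, h])
  simpa [axCase, Alg.eval] using h

theorem num_succ (s : ℕ → A) (n : ℕ) :
    S.eval s (num (n + 2)) = S.add (S.eval s (num (n + 1))) S.one := rfl

theorem num_add (s : ℕ → A) (a b : ℕ) :
    S.add (S.eval s (num (a + 1))) (S.eval s (num (b + 1))) = S.eval s (num (a + b + 2)) := by
  induction b with
  | zero => rfl
  | succ b ih =>
    have h1 : S.eval s (num (b + 1 + 1)) = S.add (S.eval s (num (b + 1))) S.one := rfl
    have h2 : S.eval s (num (a + (b + 1) + 2)) = S.add (S.eval s (num (a + b + 2))) S.one := rfl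
    rw [h1, h2, ← add_assoc' hS, ih]

theorem zero_mul_num (s : ℕ → A) (n : ℕ) :
    S.mul S.zero (S.eval s (num (n + 1))) = S.zero := by
  induction n with
  | zero => exact zero_one' hS
  | succ n ih =>
    have h1 : S.eval s (num (n + 1 + 1)) = S.add (S.eval s (num (n + 1))) S.one := rfl
    rw [h1, distl' hS, ih, zero_one' hS, zero_zero' hS]

/-- `1 + 2 · k = 2k + 1` for numerals. -/
theorem one_add_two_mul (s : ℕ → A) (k : ℕ) :
    S.add S.one (S.mul (S.eval s (num 2)) (S.eval s (num (k + 1)))) =
      S.eval s (num (2 * k + 3)) := by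
  have h1 : S.eval s (num 2) = S.add S.one S.one := rfl
  have h2 : S.one = S.eval s (num (0 + 1)) := rfl
  rw [h1, distr' hS, one_mul' hS, num_add hS, h2, add_comm' hS]
  have h3 := num_add hS s (k + k + 1) 0
  rw [show k + k + 2 = (k + k + 1) + 1 by ring, h3]
  congr 2
  ring

theorem derives_phi (p : ℕ) (hp : p.Prime) (hp5 : 5 ≤ p) : Holds S (phi p) := by
  intro s h
  have hodd : p % 2 = 1 := by
    rcases hp.eq_two_or_odd with h | h
    · omega
    · exact h
  obtain ⟨k, rfl⟩ : ∃ k, p = 2 * k + 3 := ⟨(p - 3) / 2, by omega⟩
  have h1 := one_add_two_mul hS s k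
  have h2 := one_add_two_mul hS s 0
  have h := h _ (List.mem_singleton.2 rfl)
  simp only [phi, Alg.eval] at h ⊢
  have key := case' hS (S.eval s (num 2)) (S.eval s (num (0 + 1))) (S.eval s (num (k + 1)))
    (zero_mul_num hS s 0) (zero_mul_num hS s k)
  rw [h1, h2] at key
  exact key h

end derive

/-- **The finite set of conditional equations.**  There is a finite list `E` of conditional
equations, each true in the common meadow of every field, such that for every prime `p ≥ 5` the
conditional equation `φ_p` is true in every algebra of the signature in which all members of `E`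
are true. -/
theorem result :
    ∃ E : List CondEq,
      (∀ c ∈ E, ∀ (F : Type u) [Field F], Holds (commonMeadow F) c) ∧
      ∀ p : ℕ, p.Prime → 5 ≤ p →
        ∀ (A : Type v) (S : Alg A), (∀ c ∈ E, Holds S c) → Holds S (phi p) :=
  ⟨axiomsE, fun c hc F _ => valid F c hc, fun p hp hp5 _ _ hS => derives_phi hS p hp hp5⟩

end Pool.Agent.Results.MP_f888fa_lc.FiniteAxioms
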